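import Mathlib
import Pool.Agent.Lib.MP_4ddf81_pr.Final3

/-!
Cutoff for the random walk on all finite nilpotent groups with `k` random generators, for all `k`
of order `log |G|` or larger (`log k ≪ log |G|`) with `k - log₂ |A| → ∞`, `A` the Abelianisation.
-/

set_option autoImplicit false

open Filter Topology

namespace Pool.Agent.Results.MP_4ddf81_pr.CutoffLogOrder

section defs

variable {G : Type} [Group G]

/-- The product `Z (w 0) * Z (w 1) * ⋯ * Z (w (n-1))` of the word `w` in the generators `Z`. -/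
def wordProd {k n : ℕ} (Z : Fin k → G) (w : Fin n → Fin k) : G :=
  (List.ofFn fun i => Z (w i)).prod

/-- Law of the position after exactly `n` jumps (started at the identity). -/
noncomputable def stepLaw {k : ℕ} (Z : Fin k → G) (n : ℕ) (g : G) : ℝ :=
  (Nat.card {w : Fin n → Fin k // wordProd Z w = g} : ℝ) / (k : ℝ) ^ n

/-- Law of the continuous-time walk at time `t`: the number of jumps is Poisson of mean `t`. -/
noncomputable def law {k : ℕ} (Z : Fin k → G) (t : ℝ) (g : G) : ℝ :=
  ∑' n : ℕ, Real.exp (-t) * t ^ n / (n.factorial : ℝ) * stepLaw Z n g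

/-- Total variation distance of the law at time `t` to the uniform distribution. -/
noncomputable def dTV [Fintype G] {k : ℕ} (Z : Fin k → G) (t : ℝ) : ℝ :=
  (1 / 2) * ∑ g : G, |law Z t g - 1 / (Nat.card G : ℝ)|

/-- Probability of the property `P` of `k` independent uniform elements of `G`. -/
noncomputable def prob (G : Type) (k : ℕ) (P : (Fin k → G) → Prop) : ℝ :=
  (Nat.card {Z : Fin k → G // P Z} : ℝ) / (Nat.card (Fin k → G) : ℝ)

end defs

/-- Cutoff whp at the deterministic times `t n`. -/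
def CutoffAt (G : ℕ → Type) [∀ n, Group (G n)] [∀ n, Fintype (G n)] (k : ℕ → ℕ)
    (t : ℕ → ℝ) : Prop :=
  (∀ ε : ℝ, 0 < ε → ε < 1 → ∀ δ : ℝ, 0 < δ →
    Tendsto (fun n => prob (G n) (k n) fun Z => 1 - δ ≤ dTV Z ((1 - ε) * t n)) atTop (𝓝 1)) ∧
  (∀ ε : ℝ, 0 < ε → ∀ δ : ℝ, 0 < δ →
    Tendsto (fun n => prob (G n) (k n) fun Z => dTV Z ((1 + ε) * t n) ≤ δ) atTop (𝓝 1))

/-- Let `G n` be nilpotent groups with `|G n| → ∞`, `k n - log₂ |A n| → ∞` (`A n` the
Abelianisation of `G n`), `log (k n) / log |G n| → 0` and `log |G n| = O(k n)`. Then the walk with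
`k n` random generators exhibits cutoff whp. -/
theorem result (G : ℕ → Type) [∀ n, Group (G n)] [∀ n, Fintype (G n)] (k : ℕ → ℕ)
    (hnil : ∀ n, Group.IsNilpotent (G n))
    (hG : Tendsto (fun n => (Nat.card (G n) : ℝ)) atTop atTop)
    (hA : Tendsto (fun n => (k n : ℝ) - Real.logb 2 (Nat.card (Abelianization (G n))))
      atTop atTop)
    (hk : Tendsto (fun n => Real.log (k n) / Real.log (Nat.card (G n))) atTop (𝓝 0))
    (C : ℝ) (hC : ∀ᶠ n in atTop, Real.log (Nat.card (G n)) ≤ C * (k n : ℝ)) :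
    ∃ t : ℕ → ℝ, CutoffAt G k t :=
  NilCut.all_Main3 G k C hnil hG hk hA hC

end Pool.Agent.Results.MP_4ddf81_pr.CutoffLogOrder
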