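import Mathlib
import Pool.Agent.Lib.MP_4ddf81_pr.Final

/-!
Cutoff for the random walk on finite nilpotent groups with random generators, in the whole
regime in which the number `k` of generators satisfies `log |G| ≪ k` and `log k ≪ log |G|`
(and, more generally, whenever the cutoff time is much smaller than `k`).
-/

set_option autoImplicit false

open Filter Topology

namespace Pool.Agent.Results.MP_4ddf81_pr.CutoffNilpotent

variable {G : Type} [Group G]

/-- The product `Z (w 0) * Z (w 1) * ⋯ * Z (w (n-1))` of the word `w` in the generators `Z`. -/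
def wordProd {k n : ℕ} (Z : Fin k → G) (w : Fin n → Fin k) : G :=
  (List.ofFn fun i => Z (w i)).prod

/-- Law of the position after exactly `n` jumps (started at the identity). -/
noncomputable def stepLaw {k : ℕ} (Z : Fin k → G) (n : ℕ) (g : G) : ℝ :=
  (Nat.card {w : Fin n → Fin k // wordProd Z w = g} : ℝ) / (k : ℝ) ^ n

/-- Law of the continuous-time walk at time `t`: the number of jumps is Poisson of mean `t`. -/
noncomputable def law {k : ℕ} (Z : Fin k → G) (t : ℝ) (g : G) : ℝ :=
  ∑' n : ℕ, Real.exp (-t) * t ^ n / (n.factorial : ℝ) * stepLaw Z n g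

/-- Total variation distance of the law at time `t` to the uniform distribution. -/
noncomputable def dTV [Fintype G] {k : ℕ} (Z : Fin k → G) (t : ℝ) : ℝ :=
  (1 / 2) * ∑ g : G, |law Z t g - 1 / (Nat.card G : ℝ)|

/-- Probability of the property `P` of `k` independent uniform elements of `G`. -/
noncomputable def prob (G : Type) (k : ℕ) (P : (Fin k → G) → Prop) : ℝ :=
  (Nat.card {Z : Fin k → G // P Z} : ℝ) / (Nat.card (Fin k → G) : ℝ)

/-- Admissible times: `n ≥ 1`, `k ^ n ≥ |G|` and `(k [G:H]) ^ n ≥ |H / [H,H]| n ^ n`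
for every subgroup `H` of `G`. -/
def Admissible (G : Type) [Group G] (k n : ℕ) : Prop :=
  1 ≤ n ∧ Nat.card G ≤ k ^ n ∧
    ∀ H : Subgroup G, Nat.card (Abelianization H) * n ^ n ≤ (k * H.index) ^ n

/-- The cutoff time: the least admissible time. -/
noncomputable def cutoffTime (G : Type) [Group G] (k : ℕ) : ℕ := sInf {n | Admissible G k n}

/-- For nilpotent groups `G n` with `|G n| → ∞` and `log (k n) / log |G n| → 0`, if
`k n / log |G n| → ∞`, or, more generally, if the least admissible time exists (for large `n`)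
and is `o(k n)`, then the walk exhibits cutoff at that time. -/
theorem result (G : ℕ → Type) [∀ n, Group (G n)] [∀ n, Fintype (G n)] (k : ℕ → ℕ)
    (hnil : ∀ n, Group.IsNilpotent (G n))
    (hG : Tendsto (fun n => (Nat.card (G n) : ℝ)) atTop atTop)
    (hk : Tendsto (fun n => Real.log (k n) / Real.log (Nat.card (G n))) atTop (𝓝 0))
    (h : Tendsto (fun n => (k n : ℝ) / Real.log (Nat.card (G n))) atTop atTop ∨
      ((∀ᶠ n in atTop, Admissible (G n) (k n) (cutoffTime (G n) (k n))) ∧
        Tendsto (fun n => (k n : ℝ) / (cutoffTime (G n) (k n) : ℝ)) atTop atTop)) :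
    (∀ ε : ℝ, 0 < ε → ε < 1 → ∀ δ : ℝ, 0 < δ →
      Tendsto (fun n => prob (G n) (k n) fun Z =>
        1 - δ ≤ dTV Z ((1 - ε) * (cutoffTime (G n) (k n) : ℝ))) atTop (𝓝 1)) ∧
    (∀ ε : ℝ, 0 < ε → ∀ δ : ℝ, 0 < δ →
      Tendsto (fun n => prob (G n) (k n) fun Z =>
        dTV Z ((1 + ε) * (cutoffTime (G n) (k n) : ℝ)) ≤ δ) atTop (𝓝 1)) :=
  NilCut.final G k hnil hG hk h

end Pool.Agent.Results.MP_4ddf81_pr.CutoffNilpotent
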